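import Mathlib

set_option autoImplicit false
open scoped Classical

namespace Pool.Agent.NS40

/-- The four-cycle on `Fin 4`: different parities. -/
def c4 (a b : Fin 4) : Prop := (a.val + b.val) % 2 = 1

abbrev HV (t k : ℕ) := (Bool × Fin t) ⊕ ((Fin (k + 1) × Fin 4) ⊕ Unit)

def HAdj (t k : ℕ) : HV t k → HV t k → Prop
  | .inl p, .inl q => p.1 ≠ q.1
  | .inr (.inl p), .inr (.inl q) => p.1 = q.1 ∧ c4 p.2 q.2
  | .inr (.inl p), .inr (.inr _) => p = (0, 0)
  | .inr (.inr _), .inr (.inl p) => p = (0, 0)
  | _, _ => False

lemma c4_symm {a b : Fin 4} (h : c4 a b) : c4 b a := by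
  unfold c4 at *; omega

lemma c4_irrefl (a : Fin 4) : ¬ c4 a a := by
  unfold c4; omega

/-- The counterexample: a `K_{t,t}`, `k+1` four-cycles, one of them with a pendant edge. -/
def HG (t k : ℕ) : SimpleGraph (HV t k) where
  Adj := HAdj t k
  symm := ⟨by
    intro x y h
    rcases x with x | x | x <;> rcases y with y | y | y <;> simp only [HAdj] at h ⊢
    · exact fun h' => h h'.symm
    · exact ⟨h.1.symm, c4_symm h.2⟩
    · exact h
    · exact h⟩
  loopless := ⟨by
    intro x h
    rcases x with x | x | x <;> simp only [HAdj] at h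
    · exact h rfl
    · exact c4_irrefl _ h.2⟩

section main
variable {V : Type*}

/-- A family of `m` disjoint four-cycles in `R` avoiding `K`. -/
structure Fam (R : SimpleGraph V) (K : Finset V) (m : ℕ) (D : Fin m × Fin 4 → V) : Prop where
  inj : Function.Injective D
  adj : ∀ i a b, c4 a b → R.Adj (D (i, a)) (D (i, b))
  avoid : ∀ p, D p ∉ K

/-- A complete bipartite graph `K_{t,t}` in `R`. -/
structure Ktt (R : SimpleGraph V) (t : ℕ) (f : Bool × Fin t → V) : Prop where
  inj : Function.Injective f
  adj : ∀ p q : Bool × Fin t, p.1 ≠ q.1 → R.Adj (f p) (f q)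

noncomputable def img {t : ℕ} (f : Bool × Fin t → V) : Finset V := Finset.univ.image f

lemma mem_img {t : ℕ} (f : Bool × Fin t → V) (p : Bool × Fin t) : f p ∈ img f :=
  Finset.mem_image_of_mem _ (Finset.mem_univ _)

lemma card_img {t : ℕ} (f : Bool × Fin t → V) : (img f).card ≤ 2 * t := by
  unfold img
  refine Finset.card_image_le.trans ?_
  simp

/-- Closedness of a family. -/
lemma closed {R : SimpleGraph V} {t k : ℕ} (hR : ¬ (HG t k).IsContained R)
    {f : Bool × Fin t → V} (hf : Ktt R t f) {D : Fin (k + 1) × Fin 4 → V}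
    (hD : Fam R (img f) (k + 1) D) (p : Fin (k + 1) × Fin 4) (y : V) (hy : y ∉ img f)
    (hpy : R.Adj (D p) y) : ∃ q, D q = y := by
  by_contra hq
  push Not at hq
  apply hR
  obtain ⟨i, a⟩ := p
  let σ : Fin (k + 1) × Fin 4 → Fin (k + 1) × Fin 4 := fun q => (Equiv.swap 0 i q.1, q.2 + a)
  have hσ : Function.Injective σ := by
    rintro ⟨i1, a1⟩ ⟨i2, a2⟩ h
    simp only [σ, Prod.mk.injEq] at h
    have h1 := (Equiv.swap 0 i).injective h.1
    have h2 : a1 = a2 := add_right_cancel h.2
    rw [h1, h2]
  have hσ0 : σ (0, 0) = (i, a) := by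
    simp [σ]
  have hrot : ∀ x y z : Fin 4, c4 x y → c4 (x + z) (y + z) := by
    unfold c4
    decide
  let g : HV t k → V := fun z => match z with
    | .inl p => f p
    | .inr (.inl q) => D (σ q)
    | .inr (.inr _) => y
  have hgadj : ∀ z z', (HG t k).Adj z z' → R.Adj (g z) (g z') := by
    intro z z' h
    rcases z with z | z | z <;> rcases z' with z' | z' | z' <;>
      simp only [HG, HAdj] at h
    · exact hf.adj _ _ h
    · have := hD.adj (Equiv.swap 0 i z.1) (z.2 + a) (z'.2 + a) (hrot _ _ _ h.2)
      simp only [g, σ]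
      rw [← h.1]
      exact this
    · subst h
      simp only [g]
      rw [hσ0]; exact hpy
    · subst h
      simp only [g]
      rw [hσ0]; exact hpy.symm
  have hginj : Function.Injective g := by
    intro z z' h
    rcases z with z | z | z <;> rcases z' with z' | z' | z' <;> simp only [g] at h
    · rw [hf.inj h]
    · exact absurd (h ▸ mem_img f z) (hD.avoid _)
    · exact absurd (h ▸ mem_img f z) hy
    · exact absurd (h.symm ▸ mem_img f z') (hD.avoid _)
    · rw [hσ (hD.inj h)]
    · exact absurd h (hq _)
    · exact absurd (h.symm ▸ mem_img f z') hy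
    · exact absurd h.symm (hq _)
    · rfl
  exact ⟨⟨⟨g, fun {a b} h => hgadj a b h⟩, hginj⟩⟩

/-- The structure lemma. -/
lemma structureL {R : SimpleGraph V} {t k : ℕ} (hR : ¬ (HG t k).IsContained R)
    {f : Bool × Fin t → V} (hf : Ktt R t f) {D : Fin (k + 1) × Fin 4 → V}
    (hD : Fam R (img f) (k + 1) D) :
    ∃ VR : Finset V, VR.card ≤ 4 * (k + 1) ∧
      (∀ x ∈ VR, ∀ y, y ∉ img f → R.Adj x y → y ∈ VR) ∧
      (∀ a b x y z : V, a ≠ b → x ≠ y → x ≠ z → y ≠ z →
        (∀ u ∈ ({a, b, x, y, z} : Finset V), u ∉ img f ∧ u ∉ VR) →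
        R.Adj a x → R.Adj a y → R.Adj a z → R.Adj b x → R.Adj b y → R.Adj b z → False) := by
  -- a four-cycle from a K_{2,2}
  have mk4 : ∀ a b x y : V, a ≠ b → x ≠ y → R.Adj a x → R.Adj a y → R.Adj b x → R.Adj b y →
      Function.Injective (![a, x, b, y]) ∧
        ∀ i j, c4 i j → R.Adj (![a, x, b, y] i) (![a, x, b, y] j) := by
    intro a b x y hab hxy h1 h2 h3 h4
    refine ⟨?_, ?_⟩
    · intro i j hij
      fin_cases i <;> fin_cases j <;> simp_all
    · intro i j hij
      fin_cases i <;> fin_cases j <;> simp_all [c4, SimpleGraph.adj_comm]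
  -- all four-cycles are closed as soon as there is one outside of the family
  have step : ∀ E : Fin 4 → V, Function.Injective E → (∀ a b, c4 a b → R.Adj (E a) (E b)) →
      (∀ a, E a ∉ img f) → (∀ a q, E a ≠ D q) →
      (∀ i a y, y ∉ img f → R.Adj (D (i, a)) y → ∃ b, D (i, b) = y) ∧
      (∀ a y, y ∉ img f → R.Adj (E a) y → ∃ b, E b = y) := by
    intro E hE1 hE2 hE3 hE4
    have famx : ∀ i, Fam R (img f) (k + 1) (fun q => if q.1 = i then E q.2 else D q) := by
      intro i
      refine ⟨?_, ?_, ?_⟩
      · rintro ⟨i1, a1⟩ ⟨i2, a2⟩ h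
        simp only at h
        split_ifs at h with h1 h2 h2
        · rw [h1, h2, hE1 h]
        · exact absurd h (hE4 _ _)
        · exact absurd h.symm (hE4 _ _)
        · exact hD.inj h
      · intro j a b hab
        simp only
        split_ifs with h1
        · exact hE2 a b hab
        · exact hD.adj j a b hab
      · rintro ⟨j, a⟩
        simp only
        split_ifs with h1
        · exact hE3 a
        · exact hD.avoid _
    constructor
    · intro i a y hy hadj
      obtain ⟨⟨j, b⟩, rfl⟩ := closed hR hf hD (i, a) y hy hadj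
      by_cases hji : j = i
      · exact ⟨b, by rw [hji]⟩
      · exfalso
        have h1 : (fun q : Fin (k + 1) × Fin 4 => if q.1 = i then E q.2 else D q) (j, b)
            = D (j, b) := by simp [hji]
        obtain ⟨⟨l, c⟩, hl⟩ := closed hR hf (famx i) (j, b) (D (i, a)) (hD.avoid _)
          (by simpa [hji] using hadj.symm)
        simp only at hl
        split_ifs at hl with h2
        · exact hE4 _ _ hl
        · have := hD.inj hl
          simp only [Prod.mk.injEq] at this
          exact h2 this.1
    · intro a y hy hadj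
      have h1 : (fun q : Fin (k + 1) × Fin 4 => if q.1 = 0 then E q.2 else D q) (0, a)
            = E a := by simp
      obtain ⟨⟨l, c⟩, hl⟩ := closed hR hf (famx 0) (0, a) y hy (by simpa using hadj)
      simp only at hl
      split_ifs at hl with h2
      · exact ⟨c, hl⟩
      · exfalso
        subst hl
        obtain ⟨q, hq⟩ := closed hR hf hD (l, c) (E a) (hE3 a) hadj.symm
        exact hE4 a q hq.symm
  by_cases hex : ∃ E : Fin 4 → V, Function.Injective E ∧ (∀ a b, c4 a b → R.Adj (E a) (E b)) ∧
      (∀ a, E a ∉ img f) ∧ (∀ a q, E a ≠ D q)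
  · obtain ⟨E, hE1, hE2, hE3, hE4⟩ := hex
    have hDc := (step E hE1 hE2 hE3 hE4).1
    refine ⟨∅, by simp, by simp, ?_⟩
    intro a b x y z hab hxy hxz hyz hout h1 h2 h3 h4 h5 h6
    obtain ⟨m1, m2⟩ := mk4 a b x y hab hxy h1 h2 h4 h5
    have hav : ∀ i, (![a, x, b, y] : Fin 4 → V) i ∉ img f := by
      intro i
      fin_cases i
      · exact (hout a (by simp)).1
      · exact (hout x (by simp)).1
      · exact (hout b (by simp)).1
      · exact (hout y (by simp)).1
    have hcl : ∃ c, (![a, x, b, y] : Fin 4 → V) c = z := by
      by_cases hmeet : ∃ j q, (![a, x, b, y] : Fin 4 → V) j = D q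
      · obtain ⟨j, ⟨i, c⟩, hj⟩ := hmeet
        -- everything is inside `D (i, ·)`
        have hall : ∀ u ∈ ({a, b, x, y, z} : Finset V), ∀ u' ∈ ({a, b, x, y, z} : Finset V),
            R.Adj u u' → (∃ c, D (i, c) = u) → ∃ c, D (i, c) = u' := by
          intro u _ u' hu' hadj ⟨c, hc⟩
          exact hDc i c u' (hout u' hu').1 (hc ▸ hadj)
        have hax := hall a (by simp) x (by simp) h1
        have hay := hall a (by simp) y (by simp) h2
        have haz := hall a (by simp) z (by simp) h3
        have hbx := hall b (by simp) x (by simp) h4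
        have hby := hall b (by simp) y (by simp) h5
        have hxa := hall x (by simp) a (by simp) h1.symm
        have hya := hall y (by simp) a (by simp) h2.symm
        have hxb := hall x (by simp) b (by simp) h4.symm
        have ha : ∃ c, D (i, c) = a := by
          fin_cases j
          · exact ⟨c, hj.symm⟩
          · exact hxa ⟨c, hj.symm⟩
          · exact hxa (hbx ⟨c, hj.symm⟩)
          · exact hya ⟨c, hj.symm⟩
        have hx := hax ha
        have hy := hay ha
        have hz := haz ha
        have hb := hxb hx
        exfalso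
        have hsub : ({a, b, x, y, z} : Finset V) ⊆ Finset.univ.image (fun c => D (i, c)) := by
          intro u hu
          simp only [Finset.mem_insert, Finset.mem_singleton] at hu
          simp only [Finset.mem_image, Finset.mem_univ, true_and]
          rcases hu with rfl | rfl | rfl | rfl | rfl
          · exact ha
          · exact hb
          · exact hx
          · exact hy
          · exact hz
        have hc5 : ({a, b, x, y, z} : Finset V).card = 5 := by
          have n1 := h1.ne; have n2 := h2.ne; have n3 := h3.ne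
          have n4 := h4.ne; have n5 := h5.ne; have n6 := h6.ne
          rw [Finset.card_insert_of_notMem (by simp [hab, n1, n2, n3]),
            Finset.card_insert_of_notMem (by simp [n4, n5, n6]),
            Finset.card_insert_of_notMem (by simp [hxy, hxz]),
            Finset.card_insert_of_notMem (by simp [hyz]), Finset.card_singleton]
        have := Finset.card_le_card hsub
        have h4' : (Finset.univ.image (fun c => D (i, c))).card ≤ 4 := by
          refine Finset.card_image_le.trans ?_
          simp
        omega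
      · push Not at hmeet
        have := (step _ m1 m2 hav hmeet).2 0 z (hout z (by simp)).1 h3
        exact this
    obtain ⟨c, hc⟩ := hcl
    fin_cases c
    · exact h3.ne hc
    · exact hxz hc
    · exact h6.ne hc
    · exact hyz hc
  · refine ⟨Finset.univ.image D, ?_, ?_, ?_⟩
    · refine Finset.card_image_le.trans ?_
      simp [mul_comm]
    · intro x hx y hy hadj
      simp only [Finset.mem_image, Finset.mem_univ, true_and] at hx ⊢
      obtain ⟨q, rfl⟩ := hx
      exact closed hR hf hD q y hy hadj
    · intro a b x y z hab hxy hxz hyz hout h1 h2 h3 h4 h5 h6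
      apply hex
      obtain ⟨m1, m2⟩ := mk4 a b x y hab hxy h1 h2 h4 h5
      refine ⟨_, m1, m2, ?_, ?_⟩
      · intro i
        fin_cases i
        · exact (hout a (by simp)).1
        · exact (hout x (by simp)).1
        · exact (hout b (by simp)).1
        · exact (hout y (by simp)).1
      · intro i q hq
        have hmem : D q ∈ Finset.univ.image D := Finset.mem_image_of_mem _ (Finset.mem_univ _)
        fin_cases i
        · exact (hout a (by simp)).2 (by rw [show a = D q from hq]; exact hmem)
        · exact (hout x (by simp)).2 (by rw [show x = D q from hq]; exact hmem)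
        · exact (hout b (by simp)).2 (by rw [show b = D q from hq]; exact hmem)
        · exact (hout y (by simp)).2 (by rw [show y = D q from hq]; exact hmem)

end main

end Pool.Agent.NS40
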