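import Pool.Agent.Helper40_NS.Main
import Pool.Agent.Helper27_NSR.J
import Pool.Agent.Helper80_NS.Wrap

set_option autoImplicit false
open scoped Classical

namespace Pool.Agent.NS40

theorem params : ∃ t p : ℕ, p.Prime ∧ 13 ≤ t ∧ 8 * (4 * t + 1) ≤ p ^ 2 ∧
    p ^ 3 < (t - 2) * (t - 2) :=
  ⟨34000, 1049, by norm_num, by norm_num, by norm_num, by norm_num⟩

theorem goodJ {V : Type} (t p : ℕ) (hp : p.Prime) (h1 : 8 * (4 * t + 1) ≤ p ^ 2)
    (h2 : p ^ 3 < (t - 2) * (t - 2)) (W : Finset V) (hW : W.card ≤ 8 * (4 * t + 1)) :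
    ∃ J, GoodJ W (t - 2) J := by
  obtain ⟨J, hJ1, hJ2⟩ := Pool.Agent.NSR.H27.exists_graph p hp W
    (by rw [Fintype.card_coe]; exact hW.trans h1)
  refine ⟨J.map (Function.Embedding.subtype _), ?_, ?_, ?_⟩
  · intro x y h
    rw [SimpleGraph.map_adj] at h
    obtain ⟨a, b, _, rfl, rfl⟩ := h
    exact ⟨a.2, b.2⟩
  · intro a b x y hab hxy e1 e2 e3 e4
    rw [SimpleGraph.map_adj] at e1 e2 e3 e4
    obtain ⟨a1, x1, i1, ha1, hx1⟩ := e1
    obtain ⟨a2, y2, i2, ha2, hy2⟩ := e2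
    obtain ⟨b3, x3, i3, hb3, hx3⟩ := e3
    obtain ⟨b4, y4, i4, hb4, hy4⟩ := e4
    have f1 : a1 = a2 := Subtype.val_injective (ha1.trans ha2.symm)
    have f2 : x1 = x3 := Subtype.val_injective (hx1.trans hx3.symm)
    have f3 : b3 = b4 := Subtype.val_injective (hb3.trans hb4.symm)
    have f4 : y2 = y4 := Subtype.val_injective (hy2.trans hy4.symm)
    subst f1 f2 f3 f4
    refine hJ1 a1 b3 x1 y2 ?_ ?_ i1 i2 i3 i4
    · rintro rfl
      exact hab (ha1.symm.trans hb3)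
    · rintro rfl
      exact hxy (hx1.symm.trans hy2)
  · intro A B hA hB hdis hAc hBc
    have hcard : ∀ C : Finset V, C ⊆ W → (C.subtype (fun x => x ∈ W)).card = C.card := by
      intro C hC
      rw [Finset.card_subtype]
      congr 1
      exact Finset.filter_true_of_mem hC
    obtain ⟨a, ha, b, hb, hab⟩ := hJ2 (A.subtype (fun x => x ∈ W)) (B.subtype (fun x => x ∈ W))
      (by
        rw [Finset.disjoint_left]
        intro x hx hy
        rw [Finset.mem_subtype] at hx hy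
        exact Finset.disjoint_left.mp hdis hx hy)
      (by
        rw [hcard A hA, hcard B hB]
        exact h2.trans_le (Nat.mul_le_mul hAc hBc))
    rw [Finset.mem_subtype] at ha hb
    exact ⟨a, ha, b, hb, by rw [SimpleGraph.map_adj]; exact ⟨a, b, hab, rfl, rfl⟩⟩

lemma fin2_cases : ∀ i : Fin 2, i = 0 ∨ i = 1 := by decide

theorem closedH {t k : ℕ} (ht : 13 ≤ t) (hk : k = 4 * t)
    (hJ : ∀ (V : Type) (W : Finset V), W.card ≤ 8 * (k + 1) → ∃ J, GoodJ W (t - 2) J)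
    (V : Type) [Fintype V] (G : SimpleGraph V) (w v : V) (hw : ∀ x, G.Adj w x ↔ x = v)
    (c : Sym2 V → Fin 2)
    (hc : ∀ i, ¬ (HG t k).IsContained (SimpleGraph.fromEdgeSet
        {e | e ∈ G.edgeSet ∧ w ∉ e ∧ c e = i})) :
    ∃ c' : Sym2 V → Fin 2, ∀ i, ¬ (HG t k).IsContained
        (SimpleGraph.fromEdgeSet {e | e ∈ G.edgeSet ∧ c' e = i}) := by
  obtain ⟨R', B', hcov, hR', hB'⟩ := extend ht hk (hJ V) G v w (fun x h => (hw x).1 h)
    (SimpleGraph.fromEdgeSet {e | e ∈ G.edgeSet ∧ w ∉ e ∧ c e = 0})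
    (SimpleGraph.fromEdgeSet {e | e ∈ G.edgeSet ∧ w ∉ e ∧ c e = 1})
    (by
      intro x y hx hy h
      have hmem : w ∉ s(x, y) := by
        rw [Sym2.mem_iff]
        rintro (h | h)
        · exact hx h.symm
        · exact hy h.symm
      rcases fin2_cases (c s(x, y)) with h0 | h0
      · left
        rw [SimpleGraph.fromEdgeSet_adj]
        exact ⟨⟨h, hmem, h0⟩, h.ne⟩
      · right
        rw [SimpleGraph.fromEdgeSet_adj]
        exact ⟨⟨h, hmem, h0⟩, h.ne⟩)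
    (by
      intro x h
      rw [SimpleGraph.fromEdgeSet_adj] at h
      exact h.1.2.1 (Sym2.mem_mk_left _ _))
    (by
      intro x h
      rw [SimpleGraph.fromEdgeSet_adj] at h
      exact h.1.2.1 (Sym2.mem_mk_left _ _))
    (hc 0) (hc 1)
  refine ⟨fun e => if e ∈ R'.edgeSet then 0 else 1, ?_⟩
  have mono : ∀ {A B : SimpleGraph V}, (∀ x y, A.Adj x y → B.Adj x y) →
      (HG t k).IsContained A → (HG t k).IsContained B := by
    rintro A B hAB ⟨φ⟩
    exact ⟨⟨⟨φ, fun h => hAB _ _ (φ.toHom.map_adj h)⟩, φ.injective⟩⟩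
  intro i h
  rcases fin2_cases i with rfl | rfl
  · refine hR' (mono ?_ h)
    intro x y hxy
    rw [SimpleGraph.fromEdgeSet_adj] at hxy
    obtain ⟨⟨h1, h2⟩, _⟩ := hxy
    by_contra hn
    have h3 : s(x, y) ∉ R'.edgeSet := hn
    simp only [if_neg h3] at h2
    exact absurd h2 (by decide)
  · refine hB' (mono ?_ h)
    intro x y hxy
    rw [SimpleGraph.fromEdgeSet_adj] at hxy
    obtain ⟨⟨h1, h2⟩, _⟩ := hxy
    rcases hcov x y h1 with h3 | h3
    · have h4 : s(x, y) ∈ R'.edgeSet := h3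
      simp only [if_pos h4] at h2
      exact absurd h2 (by decide)
    · exact h3

theorem HG_colorable (t k : ℕ) : (HG t k).Colorable 2 := by
  refine ⟨SimpleGraph.Coloring.mk (fun z => match z with
    | .inl p => if p.1 then (0 : Fin 2) else 1
    | .inr (.inl q) => if q.2.val % 2 = 0 then (0 : Fin 2) else 1
    | .inr (.inr _) => (1 : Fin 2)) ?_⟩
  intro x y h
  rcases x with x | x | x <;> rcases y with y | y | y <;> simp only [HG, HAdj] at h
  · obtain ⟨b, i⟩ := x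
    obtain ⟨b', j⟩ := y
    cases b <;> cases b' <;> simp_all
  · obtain ⟨h1, h2⟩ := h
    unfold c4 at h2
    simp only
    split_ifs with e1 e2 e2
    · omega
    · decide
    · decide
    · omega
  · subst h
    simp
  · subst h
    simp

theorem HG_noIso (t k : ℕ) : ∀ v, ∃ w, (HG t k).Adj v w := by
  intro v
  rcases v with ⟨b, i⟩ | ⟨i, a⟩ | v
  · exact ⟨Sum.inl (!b, i), by simp [HG, HAdj]⟩
  · obtain ⟨a1, _, _, h1, _⟩ := c4_two a
    exact ⟨Sum.inr (Sum.inl (i, a1)), by simp only [HG, HAdj]; exact ⟨trivial, h1⟩⟩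
  · exact ⟨Sum.inr (Sum.inl (0, 0)), by simp [HG, HAdj]⟩

theorem HG_leaf (t k : ℕ) : ∃ a b, ∀ x, (HG t k).Adj a x ↔ x = b := by
  refine ⟨Sum.inr (Sum.inr ()), Sum.inr (Sum.inl (0, 0)), ?_⟩
  intro x
  rcases x with x | x | x
  · simp [HG, HAdj]
  · simp [HG, HAdj]
  · simp [HG, HAdj]

end Pool.Agent.NS40
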