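import Pool.Agent.Helper40_NS.Core

set_option autoImplicit false
open scoped Classical

namespace Pool.Agent.NS40

section main
variable {V : Type*}

/-- The graph used inside the closed parts: no four-cycle, no large bipartite hole. -/
def GoodJ (W : Finset V) (m : ℕ) (J : SimpleGraph V) : Prop :=
  (∀ x y, J.Adj x y → x ∈ W ∧ y ∈ W) ∧
  (∀ a b x y, a ≠ b → x ≠ y → J.Adj a x → J.Adj a y → J.Adj b x → J.Adj b y → False) ∧
  (∀ A B : Finset V, A ⊆ W → B ⊆ W → Disjoint A B → m ≤ A.card → m ≤ B.card →
    ∃ a ∈ A, ∃ b ∈ B, J.Adj a b)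

lemma fin3_two : ∀ i : Fin 3, ∃ j l : Fin 3, j ≠ i ∧ l ≠ i ∧ j ≠ l := by
  decide

lemma c4_two : ∀ a : Fin 4, ∃ a1 a2 : Fin 4, a1 ≠ a2 ∧ c4 a a1 ∧ c4 a a2 := by
  unfold c4
  decide

/-- Extraction: a copy of `H` in `R + vw`. -/
lemma extract {t k : ℕ} (ht : 2 ≤ t) {R : SimpleGraph V} {v w : V}
    {R1 : SimpleGraph V} (hR1 : ∀ x y, R1.Adj x y → x ≠ w → y ≠ w → R.Adj x y)
    (hR1w : ∀ x, R1.Adj w x → x = v)
    (h : (HG t k).IsContained R1) :
    ∃ (f : Bool × Fin t → V) (D : Fin (k + 1) × Fin 4 → V),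
      Ktt R t f ∧ Fam R (img f) (k + 1) D := by
  obtain ⟨φ⟩ := h
  have hinj : Function.Injective φ := φ.injective
  have hadj : ∀ a b, (HG t k).Adj a b → R1.Adj (φ a) (φ b) := fun a b h => φ.toHom.map_adj h
  have t0 : Fin t := ⟨0, by omega⟩
  -- only the leaf can be mapped to w
  have hleaf : ∀ z, φ z = w → z = Sum.inr (Sum.inr ()) := by
    intro z hz
    have huniq : ∀ z1 z2, (HG t k).Adj z z1 → (HG t k).Adj z z2 → z1 = z2 := by
      intro z1 z2 h1 h2
      apply hinj
      have e1 := hR1w (φ z1) (by rw [← hz]; exact hadj _ _ h1)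
      have e2 := hR1w (φ z2) (by rw [← hz]; exact hadj _ _ h2)
      rw [e1, e2]
    rcases z with ⟨b, i⟩ | ⟨i, a⟩ | z
    · exfalso
      have := huniq (Sum.inl (!b, ⟨0, by omega⟩)) (Sum.inl (!b, ⟨1, by omega⟩))
        (by simp [HG, HAdj]) (by simp [HG, HAdj])
      simp at this
    · exfalso
      obtain ⟨a1, a2, hne, h1, h2⟩ := c4_two a
      have := huniq (Sum.inr (Sum.inl (i, a1))) (Sum.inr (Sum.inl (i, a2)))
        (by simp only [HG, HAdj]; exact ⟨trivial, h1⟩) (by simp only [HG, HAdj]; exact ⟨trivial, h2⟩)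
      simp only [Sum.inr.injEq, Sum.inl.injEq, Prod.mk.injEq, true_and] at this
      exact hne this
    · rfl
  have hadjR : ∀ a b, a ≠ Sum.inr (Sum.inr ()) → b ≠ Sum.inr (Sum.inr ()) →
      (HG t k).Adj a b → R.Adj (φ a) (φ b) := by
    intro a b ha hb hab
    exact hR1 _ _ (hadj _ _ hab) (fun h => ha (hleaf _ h)) (fun h => hb (hleaf _ h))
  refine ⟨fun p => φ (Sum.inl p), fun q => φ (Sum.inr (Sum.inl q)), ⟨?_, ?_⟩, ⟨?_, ?_, ?_⟩⟩
  · intro a b h
    exact Sum.inl_injective (hinj h)
  · intro p q hpq
    exact hadjR _ _ (by simp) (by simp) (by simpa [HG, HAdj] using hpq)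
  · intro a b h
    exact Sum.inl_injective (Sum.inr_injective (hinj h))
  · intro i a b hab
    exact hadjR _ _ (by simp) (by simp) (by simp only [HG, HAdj]; exact ⟨trivial, hab⟩)
  · intro p hp
    unfold img at hp
    simp only [Finset.mem_image, Finset.mem_univ, true_and] at hp
    obtain ⟨q, hq⟩ := hp
    have := hinj hq
    simp at this

/-- The recolouring. -/
theorem recolour {t k : ℕ} (ht : 13 ≤ t) (hk : k = 4 * t)
    (hJ : ∀ W : Finset V, W.card ≤ 8 * (k + 1) → ∃ J, GoodJ W (t - 2) J)
    (G : SimpleGraph V) (v w : V) (hw : ∀ x, G.Adj w x → x = v)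
    (R B : SimpleGraph V) (hRB : ∀ x y, x ≠ w → y ≠ w → G.Adj x y → R.Adj x y ∨ B.Adj x y)
    (hR : ¬ (HG t k).IsContained R) (hB : ¬ (HG t k).IsContained B)
    (f : Bool × Fin t → V) (D : Fin (k + 1) × Fin 4 → V)
    (hf : Ktt R t f) (hD : Fam R (img f) (k + 1) D)
    (f' : Bool × Fin t → V) (D' : Fin (k + 1) × Fin 4 → V)
    (hf' : Ktt B t f') (hD' : Fam B (img f') (k + 1) D') :
    ∃ R' B' : SimpleGraph V, (∀ x y, G.Adj x y → R'.Adj x y ∨ B'.Adj x y) ∧
      ¬ (HG t k).IsContained R' ∧ ¬ (HG t k).IsContained B' := by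
  obtain ⟨VR, hVR1, hVR2, hVR3⟩ := structureL hR hf hD
  obtain ⟨VB, hVB1, hVB2, hVB3⟩ := structureL hB hf' hD'
  set S : Finset V := img f ∪ img f' with hS
  set W : Finset V := (VR ∪ VB) \ S with hW
  have hScard : S.card ≤ k := by
    have := Finset.card_union_le (img f) (img f')
    have h1 := card_img f
    have h2 := card_img f'
    rw [hS]
    omega
  have hWcard : W.card ≤ 8 * (k + 1) := by
    have h1 := Finset.card_union_le VR VB
    have h2 : W.card ≤ (VR ∪ VB).card := Finset.card_le_card Finset.sdiff_subset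
    omega
  obtain ⟨J, hJ1, hJ2, hJ3⟩ := hJ W hWcard
  let R' : SimpleGraph V :=
    { Adj := fun x y => G.Adj x y ∧ (x ∈ S ∨ y ∈ S ∨ J.Adj x y)
      symm := ⟨fun x y h => ⟨h.1.symm, by
        rcases h.2 with h2 | h2 | h2
        · exact Or.inr (Or.inl h2)
        · exact Or.inl h2
        · exact Or.inr (Or.inr h2.symm)⟩⟩
      loopless := ⟨fun x h => G.loopless.irrefl x h.1⟩ }
  let B' : SimpleGraph V :=
    { Adj := fun x y => G.Adj x y ∧ x ∉ S ∧ y ∉ S ∧ ¬ J.Adj x y
      symm := ⟨fun x y h => ⟨h.1.symm, h.2.2.1, h.2.1, fun h' => h.2.2.2 h'.symm⟩⟩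
      loopless := ⟨fun x h => G.loopless.irrefl x h.1⟩ }
  refine ⟨R', B', ?_, ?_, ?_⟩
  · intro x y h
    by_cases h1 : x ∈ S
    · exact Or.inl ⟨h, Or.inl h1⟩
    by_cases h2 : y ∈ S
    · exact Or.inl ⟨h, Or.inr (Or.inl h2)⟩
    by_cases h3 : J.Adj x y
    · exact Or.inl ⟨h, Or.inr (Or.inr h3)⟩
    · exact Or.inr ⟨h, h1, h2, h3⟩
  · -- red: every four-cycle meets S
    rintro ⟨φ⟩
    have hinj : Function.Injective φ := φ.injective
    have hadj : ∀ a b, (HG t k).Adj a b → R'.Adj (φ a) (φ b) := fun a b h => φ.toHom.map_adj h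
    have hmeet : ∀ i : Fin (k + 1), ∃ a : Fin 4, φ (Sum.inr (Sum.inl (i, a))) ∈ S := by
      intro i
      by_contra hcon
      push Not at hcon
      have hJadj : ∀ a b : Fin 4, c4 a b →
          J.Adj (φ (Sum.inr (Sum.inl (i, a)))) (φ (Sum.inr (Sum.inl (i, b)))) := by
        intro a b hab
        have := hadj (Sum.inr (Sum.inl (i, a))) (Sum.inr (Sum.inl (i, b)))
          (by simp only [HG, HAdj]; exact ⟨trivial, hab⟩)
        rcases this.2 with h | h | h
        · exact absurd h (hcon a)
        · exact absurd h (hcon b)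
        · exact h
      refine hJ2 _ _ _ _ ?_ ?_ (hJadj 0 1 (by unfold c4; decide)) (hJadj 0 3 (by unfold c4; decide))
        (hJadj 2 1 (by unfold c4; decide)) (hJadj 2 3 (by unfold c4; decide))
      · intro h
        have := hinj h
        simp at this
      · intro h
        have := hinj h
        simp at this
    choose a ha using hmeet
    have h1 : (Finset.univ : Finset (Fin (k + 1))).card ≤ S.card := by
      apply Finset.card_le_card_of_injOn (fun i => φ (Sum.inr (Sum.inl (i, a i))))
      · intro i _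
        exact ha i
      · intro i _ j _ hij
        have := hinj hij
        simp only [Sum.inr.injEq, Sum.inl.injEq, Prod.mk.injEq] at this
        exact this.1
    rw [Finset.card_univ, Fintype.card_fin] at h1
    omega
  · -- blue: no K_{t,t}
    rintro ⟨φ⟩
    have hinj : Function.Injective φ := φ.injective
    have hadj : ∀ a b, (HG t k).Adj a b → B'.Adj (φ a) (φ b) := fun a b h => φ.toHom.map_adj h
    let P : Bool → Finset V := fun b => Finset.univ.image (fun i : Fin t => φ (Sum.inl (b, i)))
    have hPcard : ∀ b, (P b).card = t := by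
      intro b
      rw [Finset.card_image_of_injective]
      · simp
      · intro i j hij
        have := hinj hij
        simp only [Sum.inl.injEq, Prod.mk.injEq, true_and] at this
        exact this
    have hPdisj : Disjoint (P false) (P true) := by
      rw [Finset.disjoint_left]
      intro x hx hy
      simp only [P, Finset.mem_image, Finset.mem_univ, true_and] at hx hy
      obtain ⟨i, rfl⟩ := hx
      obtain ⟨j, hj⟩ := hy
      have := hinj hj
      simp at this
    have hPadj : ∀ b, ∀ x ∈ P b, ∀ y ∈ P (!b), B'.Adj x y := by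
      intro b x hx y hy
      simp only [P, Finset.mem_image, Finset.mem_univ, true_and] at hx hy
      obtain ⟨i, rfl⟩ := hx
      obtain ⟨j, rfl⟩ := hy
      exact hadj _ _ (by simp [HG, HAdj])
    have hPw : ∀ b, ∀ x ∈ P b, x ≠ w := by
      rintro b x hx rfl
      have hc : 1 < (P (!b)).card := by rw [hPcard]; omega
      obtain ⟨y, hy, z, hz, hyz⟩ := Finset.one_lt_card.mp hc
      exact hyz ((hw y (hPadj b x hx y hy).1).trans (hw z (hPadj b x hx z hz).1).symm)
    have hPS : ∀ b, ∀ x ∈ P b, x ∉ S := by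
      intro b x hx
      have hc : 0 < (P (!b)).card := by rw [hPcard]; omega
      obtain ⟨y, hy⟩ := Finset.card_pos.mp hc
      exact (hPadj b x hx y hy).2.1
    -- at most two vertices outside W
    have hfew : ∀ b, ((P b).filter (fun x => x ∉ W)).card ≤ 2 := by
      intro b
      by_contra hcon
      push Not at hcon
      obtain ⟨p1, h1, p2, h2, p3, h3, h12, h13, h23⟩ := Finset.two_lt_card.mp hcon
      simp only [Finset.mem_filter] at h1 h2 h3
      let p : Fin 3 → V := ![p1, p2, p3]
      have hp : ∀ i, p i ∈ P b ∧ p i ∉ W := by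
        intro i
        fin_cases i
        · exact h1
        · exact h2
        · exact h3
      have hpne : ∀ i j, i ≠ j → p i ≠ p j := by
        intro i j hij
        fin_cases i <;> fin_cases j
        · exact absurd rfl hij
        · exact h12
        · exact h13
        · exact h12.symm
        · exact absurd rfl hij
        · exact h23
        · exact h13.symm
        · exact h23.symm
        · exact absurd rfl hij
      have hpV : ∀ i, p i ∉ VR ∧ p i ∉ VB ∧ p i ∉ img f ∧ p i ∉ img f' := by
        intro i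
        have hs := hPS b _ (hp i).1
        have hw' := (hp i).2
        simp only [hW, hS, Finset.mem_sdiff, Finset.mem_union] at hs hw'
        tauto
      -- every vertex of the other side sees two of the three in the same colour
      have hpat : ∀ y ∈ P (!b), ∃ c : Fin 3 × Bool,
          (∀ i, i ≠ c.1 → (if c.2 then R else B).Adj (p i) y) := by
        intro y hy
        have hor : ∀ i, R.Adj (p i) y ∨ B.Adj (p i) y := fun i =>
          hRB _ _ (hPw b _ (hp i).1) (hPw _ _ hy) (hPadj b _ (hp i).1 y hy).1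
        have key : ∀ i j l : Fin 3, i ≠ j → i ≠ l → j ≠ l → R.Adj (p j) y → R.Adj (p l) y →
            ∃ c : Fin 3 × Bool, (∀ i, i ≠ c.1 → (if c.2 then R else B).Adj (p i) y) := by
          intro i j l hij hil hjl hj hl
          refine ⟨(i, true), ?_⟩
          intro m hm
          have hm' : m ≠ i := hm
          have : m = j ∨ m = l := by
            omega
          rcases this with rfl | rfl
          · simpa using hj
          · simpa using hl
        have key' : ∀ i j l : Fin 3, i ≠ j → i ≠ l → j ≠ l → B.Adj (p j) y → B.Adj (p l) y →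
            ∃ c : Fin 3 × Bool, (∀ i, i ≠ c.1 → (if c.2 then R else B).Adj (p i) y) := by
          intro i j l hij hil hjl hj hl
          refine ⟨(i, false), ?_⟩
          intro m hm
          have hm' : m ≠ i := hm
          have : m = j ∨ m = l := by
            omega
          rcases this with rfl | rfl
          · simpa using hj
          · simpa using hl
        rcases hor 0 with h0 | h0 <;> rcases hor 1 with h1 | h1 <;> rcases hor 2 with h2 | h2
        · exact key 0 1 2 (by decide) (by decide) (by decide) h1 h2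
        · exact key 2 0 1 (by decide) (by decide) (by decide) h0 h1
        · exact key 1 0 2 (by decide) (by decide) (by decide) h0 h2
        · exact key' 0 1 2 (by decide) (by decide) (by decide) h1 h2
        · exact key 0 1 2 (by decide) (by decide) (by decide) h1 h2
        · exact key' 1 0 2 (by decide) (by decide) (by decide) h0 h2
        · exact key' 2 0 1 (by decide) (by decide) (by decide) h0 h1
        · exact key' 0 1 2 (by decide) (by decide) (by decide) h1 h2
      choose! g hg using hpat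
      have hpig : ∃ c ∈ (Finset.univ : Finset (Fin 3 × Bool)),
          2 < ((P (!b)).filter (fun y => g y = c)).card := by
        apply Finset.exists_lt_card_fiber_of_mul_lt_card_of_maps_to
        · intro y _
          exact Finset.mem_univ _
        · rw [hPcard]
          simp
          omega
      obtain ⟨⟨i, col⟩, _, hc⟩ := hpig
      obtain ⟨y1, k1, y2, k2, y3, k3, k12, k13, k23⟩ := Finset.two_lt_card.mp hc
      simp only [Finset.mem_filter] at k1 k2 k3
      obtain ⟨j, l, hij, hil, hjl⟩ := fin3_two i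
      have hyV : ∀ y ∈ P (!b), y ∉ img f ∧ y ∉ img f' := by
        intro y hy
        have hs := hPS _ _ hy
        simp only [hS, Finset.mem_union] at hs
        tauto
      cases col with
      | true =>
        have e : ∀ y, y ∈ P (!b) → g y = (i, true) → ∀ m, m ≠ i → R.Adj (p m) y := by
          intro y hy hgy m hm
          have := hg y hy m (by rw [hgy]; exact hm)
          rw [hgy] at this
          simpa using this
        have hnV : ∀ y, y ∈ P (!b) → g y = (i, true) → y ∉ VR := by
          intro y hy hgy hyV'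
          exact (hpV j).1 (hVR2 y hyV' _ (hpV j).2.2.1 (e y hy hgy j hij).symm)
        refine hVR3 (p j) (p l) y1 y2 y3 (hpne _ _ hjl) k12 k13 k23 ?_ (e _ k1.1 k1.2 _ hij)
          (e _ k2.1 k2.2 _ hij) (e _ k3.1 k3.2 _ hij) (e _ k1.1 k1.2 _ hil)
          (e _ k2.1 k2.2 _ hil) (e _ k3.1 k3.2 _ hil)
        intro u hu
        simp only [Finset.mem_insert, Finset.mem_singleton] at hu
        rcases hu with rfl | rfl | rfl | rfl | rfl
        · exact ⟨(hpV j).2.2.1, (hpV j).1⟩
        · exact ⟨(hpV l).2.2.1, (hpV l).1⟩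
        · exact ⟨(hyV _ k1.1).1, hnV _ k1.1 k1.2⟩
        · exact ⟨(hyV _ k2.1).1, hnV _ k2.1 k2.2⟩
        · exact ⟨(hyV _ k3.1).1, hnV _ k3.1 k3.2⟩
      | false =>
        have e : ∀ y, y ∈ P (!b) → g y = (i, false) → ∀ m, m ≠ i → B.Adj (p m) y := by
          intro y hy hgy m hm
          have := hg y hy m (by rw [hgy]; exact hm)
          rw [hgy] at this
          simpa using this
        have hnV : ∀ y, y ∈ P (!b) → g y = (i, false) → y ∉ VB := by
          intro y hy hgy hyV'
          exact (hpV j).2.1 (hVB2 y hyV' _ (hpV j).2.2.2 (e y hy hgy j hij).symm)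
        refine hVB3 (p j) (p l) y1 y2 y3 (hpne _ _ hjl) k12 k13 k23 ?_ (e _ k1.1 k1.2 _ hij)
          (e _ k2.1 k2.2 _ hij) (e _ k3.1 k3.2 _ hij) (e _ k1.1 k1.2 _ hil)
          (e _ k2.1 k2.2 _ hil) (e _ k3.1 k3.2 _ hil)
        intro u hu
        simp only [Finset.mem_insert, Finset.mem_singleton] at hu
        rcases hu with rfl | rfl | rfl | rfl | rfl
        · exact ⟨(hpV j).2.2.2, (hpV j).2.1⟩
        · exact ⟨(hpV l).2.2.2, (hpV l).2.1⟩
        · exact ⟨(hyV _ k1.1).2, hnV _ k1.1 k1.2⟩
        · exact ⟨(hyV _ k2.1).2, hnV _ k2.1 k2.2⟩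
        · exact ⟨(hyV _ k3.1).2, hnV _ k3.1 k3.2⟩
    have hmany : ∀ b, t - 2 ≤ ((P b).filter (fun x => x ∈ W)).card := by
      intro b
      have h1 := Finset.card_filter_add_card_filter_not (s := P b) (fun x => x ∈ W)
      have h2 := hfew b
      rw [hPcard] at h1
      omega
    obtain ⟨x, hx, y, hy, hxy⟩ := hJ3 ((P false).filter (fun x => x ∈ W))
      ((P true).filter (fun x => x ∈ W)) (fun x hx => (Finset.mem_filter.mp hx).2)
      (fun x hx => (Finset.mem_filter.mp hx).2)
      (hPdisj.mono (Finset.filter_subset _ _) (Finset.filter_subset _ _)) (hmany false) (hmany true)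
    exact (hPadj false x (Finset.mem_filter.mp hx).1 y (Finset.mem_filter.mp hy).1).2.2.2 hxy

/-- **Main step.** If `G` minus a vertex `w` of degree at most one has an `H`-free colouring, then
so has `G`. -/
theorem extend {t k : ℕ} (ht : 13 ≤ t) (hk : k = 4 * t)
    (hJ : ∀ W : Finset V, W.card ≤ 8 * (k + 1) → ∃ J, GoodJ W (t - 2) J)
    (G : SimpleGraph V) (v w : V) (hw : ∀ x, G.Adj w x → x = v)
    (R B : SimpleGraph V) (hRB : ∀ x y, x ≠ w → y ≠ w → G.Adj x y → R.Adj x y ∨ B.Adj x y)
    (hRw : ∀ x, ¬ R.Adj w x) (hBw : ∀ x, ¬ B.Adj w x)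
    (hR : ¬ (HG t k).IsContained R) (hB : ¬ (HG t k).IsContained B) :
    ∃ R' B' : SimpleGraph V, (∀ x y, G.Adj x y → R'.Adj x y ∨ B'.Adj x y) ∧
      ¬ (HG t k).IsContained R' ∧ ¬ (HG t k).IsContained B' := by
  -- the edge at w
  let E : SimpleGraph V :=
    { Adj := fun x y => G.Adj x y ∧ (x = w ∨ y = w)
      symm := ⟨fun x y h => ⟨h.1.symm, h.2.symm⟩⟩
      loopless := ⟨fun x h => G.loopless.irrefl x h.1⟩ }
  have hE : ∀ x, E.Adj w x → x = v := fun x h => hw x h.1
  have hcov : ∀ x y, G.Adj x y → R.Adj x y ∨ B.Adj x y ∨ E.Adj x y := by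
    intro x y h
    by_cases h1 : x = w
    · exact Or.inr (Or.inr ⟨h, Or.inl h1⟩)
    by_cases h2 : y = w
    · exact Or.inr (Or.inr ⟨h, Or.inr h2⟩)
    rcases hRB x y h1 h2 h with h | h
    · exact Or.inl h
    · exact Or.inr (Or.inl h)
  by_cases h1 : (HG t k).IsContained (R ⊔ E)
  swap
  · refine ⟨R ⊔ E, B, ?_, h1, hB⟩
    intro x y h
    rcases hcov x y h with h | h | h
    · exact Or.inl (Or.inl h)
    · exact Or.inr h
    · exact Or.inl (Or.inr h)
  by_cases h2 : (HG t k).IsContained (B ⊔ E)
  swap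
  · refine ⟨R, B ⊔ E, ?_, hR, h2⟩
    intro x y h
    rcases hcov x y h with h | h | h
    · exact Or.inl h
    · exact Or.inr (Or.inl h)
    · exact Or.inr (Or.inr h)
  obtain ⟨f, D, hf, hD⟩ := extract (R := R) (v := v) (w := w) (by omega) (R1 := R ⊔ E) (by
    intro x y h hx hy
    rcases h with h | h
    · exact h
    · rcases h.2 with h | h
      · exact absurd h hx
      · exact absurd h hy) (by
    intro x h
    rcases h with h | h
    · exact absurd h (hRw x)
    · exact hE x h) h1
  obtain ⟨f', D', hf', hD'⟩ := extract (R := B) (v := v) (w := w) (by omega) (R1 := B ⊔ E) (by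
    intro x y h hx hy
    rcases h with h | h
    · exact h
    · rcases h.2 with h | h
      · exact absurd h hx
      · exact absurd h hy) (by
    intro x h
    rcases h with h | h
    · exact absurd h (hBw x)
    · exact hE x h) h2
  exact recolour ht hk hJ G v w hw R B hRB hR hB f D hf hD f' D' hf' hD'

end main

end Pool.Agent.NS40
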